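import Mathlib
import Pool.Agent.H.MP_67c6ba_gt.A

open TopologicalSpace

namespace Pool.Agent.Results.MP_656a26_gt.FreeNot

/-- group topologies on the free group over `[0,1]` that restrict to the Euclidean topology -/
def Adm (t : TopologicalSpace (FreeGroup unitInterval)) : Prop :=
  @IsTopologicalGroup (FreeGroup unitInterval) t _ ∧
    induced FreeGroup.of t = (inferInstance : TopologicalSpace unitInterval)

/-- `G` is S-separable -/
def SSep (G : Type) [TopologicalSpace G] [Group G] : Prop :=
  ∀ (H : Type) [TopologicalSpace H] [Group H] [IsTopologicalGroup H] [T2Space H],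
    (∀ K : Subgroup H, IsClosed (K : Set H) → SeparableSpace K) →
    ∀ L : Subgroup (G × H), IsClosed (L : Set (G × H)) → SeparableSpace L

theorem result : ∃ t : TopologicalSpace (FreeGroup unitInterval), Adm t ∧
    (∀ s, Adm s → ∀ U, @IsOpen _ s U → @IsOpen _ t U) ∧ ¬ @SSep (FreeGroup unitInterval) t _ := by
  let p : FreeGroup unitInterval →* Multiplicative ℝ :=
    FreeGroup.lift fun x => Multiplicative.ofAdd x.1
  have h0 : Adm (induced p inferInstance) := ⟨topologicalGroup_induced p, by
    rw [induced_compose]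
    congr 1
    ext x
    simp [p]
    rfl⟩
  have h1 : ∀ s, Adm s → sInf {s | Adm s} ≤ s := fun s hs => sInf_le hs
  refine ⟨sInf {s | Adm s}, ⟨topologicalGroup_sInf fun s hs => hs.1, le_antisymm
    ((induced_mono (h1 _ h0)).trans h0.2.le) ?_⟩, fun s hs U hU => h1 s hs U hU, fun h => ?_⟩
  · exact continuous_iff_le_induced.1 (continuous_sInf_rng.2 fun s hs =>
      continuous_iff_le_induced.2 hs.2.ge)
  · letI := sInf {s | Adm s}
    obtain ⟨H, _, _, _, _, hH, L, hL, hL'⟩ := Pool.Agent.H.MP_67c6ba_gt.main _ p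
      (continuous_iff_le_induced.2 (h1 _ h0)) (fun r => by
        refine ⟨FreeGroup.of 1 ^ ⌊r.toAdd⌋ * FreeGroup.of ⟨Int.fract r.toAdd,
          Int.fract_nonneg _, (Int.fract_lt_one _).le⟩, Multiplicative.toAdd.injective ?_⟩
        simp [p])
    exact hL' (h H hH L hL)

end Pool.Agent.Results.MP_656a26_gt.FreeNot
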